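import Mathlib
import Pool.Agent.H705R2.ABC2.Fail

/-!
# abc-triples with `a rad (b) rad (c) ≤ c`: the bounds used in the certificate (generated)
-/

set_option linter.unusedSimpArgs false
set_option linter.unusedVariables false

namespace Pool.Agent.H705R2.LW

open Finset Pool.Agent.H785R2.ABC Pool.Agent.H705R2.ABC2

/-- the failing bounds, in coordinates -/
structure Facts (a0 a1 a2 a3 a4 b0 b1 b2 b3 b4 c0 c1 c2 c3 c4 ya yb yc t : ℝ) : Prop where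
  f0 :
    t < a0 + a1 + a2 + a3 + a4 + b0 + b2 + b3 + b4 + c2 + c3 + c4 ∨ t < a0 + a1 + a2 + a3 + a4
    + b0 + b1 + b2 + b3 + b4 - 2 * c2 - 3 * c3 + c4 - yc
  f1 :
    t < a1 + a2 + a3 + a4 + b1 + b2 + b3 + b4 + c2 + c3 + c4 ∨ t < a0 + a1 + a2 + a3 + a4 + b0
    + b1 + b2 + b3 + b4 + c0 + 2 * c1 + c2 + c3 + c4 - 1
  f2 :
    t < a1 + a2 + a3 + a4 + b0 + b1 + b3 + b4 + c0 + c1 + c3 + c4 ∨ t < a0 + a1 + a2 + a3 + a4
    + b0 + b1 + b2 + b3 + b4 + c0 + c1 + c2 + c3 + c4 - 1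
  f3 :
    t < a0 + a1 + a2 + a3 + a4 + b2 + b3 + b4 + c0 + c1 + c3 + c4 ∨ t < a0 + a1 + a2 + a3 + a4
    - 2 * b2 - 3 * b3 + b4 + c0 + c1 + c2 + c3 + c4 - yb
  f4 :
    t < a2 + a3 + a4 + b0 + b2 + b3 + b4 + c1 + c2 + c3 + c4 ∨ t < a0 + 2 * a1 + a2 + a3 + a4 +
    b0 + 2 * b1 + b2 + b3 + b4 + c0 + c1 + c2 + c3 + c4 - 1
  f5 :
    t < a0 + a2 + a3 + a4 + b2 + b3 + b4 + c2 + c3 + c4 ∨ t < a0 + 2 * a1 + a2 + a3 + a4 + b0 +
    2 * b1 + b2 + b3 + b4 - 2 * c2 - 3 * c3 + c4 - yc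
  f6 :
    t < a2 + a3 + a4 + b0 + b2 + b4 + c0 + c1 + c2 + c4 ∨ t < a0 + 2 * a1 + a2 + a3 + a4 + b0 +
    b1 + b2 + 2 * b3 + b4 + c0 + c1 + c2 + 2 * c3 + c4 - 1
  f7 :
    t < 1 / 2 * a0 + 1 / 2 * a1 + 1 / 2 * a2 + 1 / 2 * a3 + 1 / 2 * a4 + b1 + b2 + b3 + b4 + 1
    / 2 * c0 + 1 / 2 * c1 + 1 / 2 * c2 + 1 / 2 * c3 + 1 / 2 * c4 ∨ t < 1 / 2 * a0 + 1 / 2 * a1
    + 1 / 2 * a2 + 1 / 2 * a3 + 1 / 2 * a4 - 1 / 2 * b2 - b3 + b4 + 5 / 4 * c0 + 5 / 4 * c1 + 5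
    / 4 * c2 + 5 / 4 * c3 + 5 / 4 * c4 - 1 / 2 * yb ∨ t < 5 / 4 * a0 + 5 / 4 * a1 + 5 / 4 * a2
    + 5 / 4 * a3 + 5 / 4 * a4 - 1 / 2 * b2 - b3 + b4 + 1 / 2 * c0 + 1 / 2 * c1 + 1 / 2 * c2 + 1
    / 2 * c3 + 1 / 2 * c4 - 1 / 2 * yb ∨ t < 5 / 4 * a0 + 5 / 4 * a1 + 5 / 4 * a2 + 5 / 4 * a3
    + 5 / 4 * a4 - b1 - 2 * b2 - 3 * b3 + b4 + 5 / 4 * c0 + 5 / 4 * c1 + 5 / 4 * c2 + 5 / 4 *
    c3 + 5 / 4 * c4 - yb
  f8 :
    t < a0 + a1 + a3 + a4 + b0 + b1 + b3 + b4 + c1 + c2 + c3 + c4 ∨ t < a0 + a1 + a2 + a3 + a4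
    + b0 + b1 + b2 + b3 + b4 - c1 - 2 * c2 - 3 * c3 + c4 - yc
  f9 :
    t < 1 / 2 * a0 + 1 / 2 * a1 + 1 / 2 * a2 + 1 / 2 * a3 + 1 / 2 * a4 + b2 + b3 + b4 + 1 / 2 *
    c0 + 1 / 2 * c1 + 1 / 2 * c2 + 1 / 2 * c3 + 1 / 2 * c4 ∨ t < 1 / 2 * a0 + 1 / 2 * a1 + 1 /
    2 * a2 + 1 / 2 * a3 + 1 / 2 * a4 - 1 / 2 * b2 - b3 + b4 + 5 / 4 * c0 + 5 / 4 * c1 + 5 / 4 *
    c2 + 5 / 4 * c3 + 5 / 4 * c4 - 1 / 2 * yb ∨ t < 5 / 4 * a0 + 5 / 4 * a1 + 5 / 4 * a2 + 5 /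
    4 * a3 + 5 / 4 * a4 - 1 / 2 * b2 - b3 + b4 + 1 / 2 * c0 + 1 / 2 * c1 + 1 / 2 * c2 + 1 / 2 *
    c3 + 1 / 2 * c4 - 1 / 2 * yb ∨ t < 5 / 4 * a0 + 5 / 4 * a1 + 5 / 4 * a2 + 5 / 4 * a3 + 5 /
    4 * a4 - 2 * b2 - 3 * b3 + b4 + 5 / 4 * c0 + 5 / 4 * c1 + 5 / 4 * c2 + 5 / 4 * c3 + 5 / 4 *
    c4 - yb
  f10 :
    t < 1 / 2 * a0 + 1 / 2 * a1 + 1 / 2 * a2 + 1 / 2 * a3 + 1 / 2 * a4 + 1 / 2 * b0 + 1 / 2 *
    b1 + 1 / 2 * b2 + 1 / 2 * b3 + 1 / 2 * b4 + c2 + c3 + c4 ∨ t < 5 / 4 * a0 + 5 / 4 * a1 + 5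
    / 4 * a2 + 5 / 4 * a3 + 5 / 4 * a4 + 1 / 2 * b0 + 1 / 2 * b1 + 1 / 2 * b2 + 1 / 2 * b3 + 1
    / 2 * b4 - 1 / 2 * c2 - c3 + c4 - 1 / 2 * yc ∨ t < 1 / 2 * a0 + 1 / 2 * a1 + 1 / 2 * a2 + 1
    / 2 * a3 + 1 / 2 * a4 + 5 / 4 * b0 + 5 / 4 * b1 + 5 / 4 * b2 + 5 / 4 * b3 + 5 / 4 * b4 - 1
    / 2 * c2 - c3 + c4 - 1 / 2 * yc ∨ t < 5 / 4 * a0 + 5 / 4 * a1 + 5 / 4 * a2 + 5 / 4 * a3 + 5
    / 4 * a4 + 5 / 4 * b0 + 5 / 4 * b1 + 5 / 4 * b2 + 5 / 4 * b3 + 5 / 4 * b4 - 2 * c2 - 3 * c3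
    + c4 - yc
  f11 :
    t < a2 + a3 + a4 + b1 + b3 + b4 + c1 + c2 + c3 + c4 ∨ t < a0 + 2 * a1 + a2 + a3 + a4 + b0 +
    b1 + 3 * b2 + b3 + b4 + c0 + c1 + c2 + c3 + c4 - 1
  f12 :
    t < a2 + a3 + a4 + b0 + b1 + b2 + b4 + c0 + c2 + c3 + c4 ∨ t < a0 + 2 * a1 + a2 + a3 + a4 +
    b0 + b1 + b2 + 2 * b3 + b4 + c0 + c1 + c2 + c3 + c4 - 1
  f13 :
    t < a1 + a3 + a4 + b1 + b2 + b3 + b4 + c3 + c4 ∨ t < a0 + a1 + 3 * a2 + a3 + a4 + b0 + b1 +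
    b2 + b3 + b4 + c0 + 2 * c1 + 3 * c2 + c3 + c4 - 1
  f14 :
    t < a2 + a3 + a4 + b1 + b3 + b4 + c2 + c3 + c4 ∨ t < a0 + 2 * a1 + a2 + a3 + a4 + b0 + b1 +
    3 * b2 + b3 + b4 - 2 * c2 - 3 * c3 + c4 - yc
  f15 :
    t < a3 + a4 + b1 + b2 + b3 + b4 + c2 ∨ t < a0 + 2 * a1 + 3 * a2 + a3 + a4 + b0 + b1 + b2 +
    b3 + b4 - 2 * c2
  f16 :
    t < a0 + a2 + a3 + a4 + b3 + b4 + c0 + c2 + c4 ∨ t < a0 + a1 + a2 + a3 + a4 - 3 * b3 + b4 +
    c0 + c1 + c2 + 2 * c3 + c4 - yb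
  f17 :
    t < a2 + a3 + a4 + b2 + b3 + b4 + c3 + c4 ∨ t < a0 + 2 * a1 + a2 + a3 + a4 - 2 * b2 - 3 *
    b3 + b4 + c0 + 2 * c1 + 3 * c2 + c3 + c4 - yb
  f18 :
    t < b2 + b3 + b4 + c2 + c3 + c4 ∨ t < a0 + 2 * a1 + 3 * a2 + 4 * a3 - 2 * b2 - 3 * b3 + b4
    + c0 + 2 * c1 + c2 + c3 + c4 + ya - yb
  f19 :
    t < b0 + b1 + b3 + b4 + c0 + c1 + c3 + c4 ∨ t < a0 + 2 * a1 + 3 * a2 + 4 * a3 + b0 + b1 +
    b2 + b3 + b4 + c0 + c1 + c2 + c3 + c4 + ya - 1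
  f20 :
    t < a2 + a3 + a4 + b2 + b3 + b4 + c0 + c2 + c3 + c4 ∨ t < a0 + 2 * a1 + a2 + a3 + a4 + b0 +
    2 * b1 + b2 + b3 + b4 + c0 + 2 * c1 + c2 + c3 + c4 - 1
  f21 :
    t < a2 + a3 + a4 + b2 + b3 + b4 + c2 + c3 + c4 ∨ t < a0 + 2 * a1 + a2 + a3 + a4 + b0 + 2 *
    b1 + b2 + b3 + b4 - 2 * c2 - 3 * c3 + c4 - yc
  f22 :
    t < a1 + a2 + a3 + a4 + b2 + b3 + b4 + c1 + c2 + c3 + c4 ∨ t < a0 + a1 + a2 + a3 + a4 + b0
    + 2 * b1 + b2 + b3 + b4 - c1 - 2 * c2 - 3 * c3 + c4 - yc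
  f23 :
    t < a1 + a2 + a3 + a4 + b0 + b2 + b3 + b4 + c2 + c3 + c4 ∨ t < a0 + a1 + a2 + a3 + a4 - 2 *
    b2 - 3 * b3 + b4 + c0 + 2 * c1 + c2 + c3 + c4 - yb
  f24 :
    t < a1 + a2 + a3 + a4 + b2 + b3 + b4 + c2 + c3 + c4 ∨ t < a0 + a1 + a2 + a3 + a4 + b0 + 2 *
    b1 + b2 + b3 + b4 - 2 * c2 - 3 * c3 + c4 - yc

theorem bd0 {v w : Fin 3 → Fin 5 → ℝ} {t : ℝ} (h : Fail v w t) (hw : Wt v w) :
    t < v 0 0 + v 0 1 + v 0 2 + v 0 3 + v 0 4 + v 1 0 + v 1 2 + v 1 3 + v 1 4 + v 2 2 + v 2 3 +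
    v 2 4 ∨ t < v 0 0 + v 0 1 + v 0 2 + v 0 3 + v 0 4 + v 1 0 + v 1 1 + v 1 2 + v 1 3 + v 1 4 -
    2 * v 2 2 - 3 * v 2 3 + v 2 4 - w 2 4 := by
  have h1 := h.M 0 1 2 (by decide) (by decide) (by decide) 2 (by norm_num) (by norm_num)
    (ms false false false false false) (ms false true false false false)
    (ms false false true true true) (good_ms _ _ _ _ _ _ (by decide))
    (good_ms _ _ _ _ _ _ (by decide))
  simp only [cost_ms_compl, cost_ms, cost_univ, thn, hw.w0, hw.w1, hw.w2, hw.w3, cond_true,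
    cond_false, if_true, Nat.cast_ofNat, Nat.cast_one, div_one] at h1
  rw [if_neg (by decide)] at h1
  rcases h1 with h1 | h1
  · left; linarith only [h1]
  · right; linarith only [h1]

theorem bd1 {v w : Fin 3 → Fin 5 → ℝ} {t : ℝ} (h : Fail v w t) (hw : Wt v w) :
    t < v 0 1 + v 0 2 + v 0 3 + v 0 4 + v 1 1 + v 1 2 + v 1 3 + v 1 4 + v 2 2 + v 2 3 + v 2 4 ∨
    t < v 0 0 + v 0 1 + v 0 2 + v 0 3 + v 0 4 + v 1 0 + v 1 1 + v 1 2 + v 1 3 + v 1 4 + v 2 0 +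
    2 * v 2 1 + v 2 2 + v 2 3 + v 2 4 - 1 := by
  have h1 := h.M 1 2 0 (by decide) (by decide) (by decide) 1 (by norm_num) (by norm_num)
    (ms true false false false false) (ms true true false false false)
    (ms false true true true true) (good_ms _ _ _ _ _ _ (by decide))
    (good_ms _ _ _ _ _ _ (by decide))
  simp only [cost_ms_compl, cost_ms, cost_univ, thn, hw.w0, hw.w1, hw.w2, hw.w3, cond_true,
    cond_false, if_true, Nat.cast_ofNat, Nat.cast_one, div_one] at h1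
  rcases h1 with h1 | h1
  · left; linarith only [h1]
  · right; linarith only [h1]

theorem bd2 {v w : Fin 3 → Fin 5 → ℝ} {t : ℝ} (h : Fail v w t) (hw : Wt v w) :
    t < v 0 1 + v 0 2 + v 0 3 + v 0 4 + v 1 0 + v 1 1 + v 1 3 + v 1 4 + v 2 0 + v 2 1 + v 2 3 +
    v 2 4 ∨ t < v 0 0 + v 0 1 + v 0 2 + v 0 3 + v 0 4 + v 1 0 + v 1 1 + v 1 2 + v 1 3 + v 1 4 +
    v 2 0 + v 2 1 + v 2 2 + v 2 3 + v 2 4 - 1 := by
  have h1 := h.M 1 2 0 (by decide) (by decide) (by decide) 3 (by norm_num) (by norm_num)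
    (ms false false true false false) (ms false false true false false)
    (ms false true true true true) (good_ms _ _ _ _ _ _ (by decide))
    (good_ms _ _ _ _ _ _ (by decide))
  simp only [cost_ms_compl, cost_ms, cost_univ, thn, hw.w0, hw.w1, hw.w2, hw.w3, cond_true,
    cond_false, if_true, Nat.cast_ofNat, Nat.cast_one, div_one] at h1
  rcases h1 with h1 | h1
  · left; linarith only [h1]
  · right; linarith only [h1]

theorem bd3 {v w : Fin 3 → Fin 5 → ℝ} {t : ℝ} (h : Fail v w t) (hw : Wt v w) :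
    t < v 0 0 + v 0 1 + v 0 2 + v 0 3 + v 0 4 + v 1 2 + v 1 3 + v 1 4 + v 2 0 + v 2 1 + v 2 3 +
    v 2 4 ∨ t < v 0 0 + v 0 1 + v 0 2 + v 0 3 + v 0 4 - 2 * v 1 2 - 3 * v 1 3 + v 1 4 + v 2 0 +
    v 2 1 + v 2 2 + v 2 3 + v 2 4 - w 1 4 := by
  have h1 := h.M 2 0 1 (by decide) (by decide) (by decide) 3 (by norm_num) (by norm_num)
    (ms false false true false false) (ms false false false false false)
    (ms false false true true true) (good_ms _ _ _ _ _ _ (by decide))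
    (good_ms _ _ _ _ _ _ (by decide))
  simp only [cost_ms_compl, cost_ms, cost_univ, thn, hw.w0, hw.w1, hw.w2, hw.w3, cond_true,
    cond_false, if_true, Nat.cast_ofNat, Nat.cast_one, div_one] at h1
  rw [if_neg (by decide)] at h1
  rcases h1 with h1 | h1
  · left; linarith only [h1]
  · right; linarith only [h1]

theorem bd4 {v w : Fin 3 → Fin 5 → ℝ} {t : ℝ} (h : Fail v w t) (hw : Wt v w) :
    t < v 0 2 + v 0 3 + v 0 4 + v 1 0 + v 1 2 + v 1 3 + v 1 4 + v 2 1 + v 2 2 + v 2 3 + v 2 4 ∨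
    t < v 0 0 + 2 * v 0 1 + v 0 2 + v 0 3 + v 0 4 + v 1 0 + 2 * v 1 1 + v 1 2 + v 1 3 + v 1 4 +
    v 2 0 + v 2 1 + v 2 2 + v 2 3 + v 2 4 - 1 := by
  have h1 := h.M 1 2 0 (by decide) (by decide) (by decide) 1 (by norm_num) (by norm_num)
    (ms false true false false false) (ms true false false false false)
    (ms false false true true true) (good_ms _ _ _ _ _ _ (by decide))
    (good_ms _ _ _ _ _ _ (by decide))
  simp only [cost_ms_compl, cost_ms, cost_univ, thn, hw.w0, hw.w1, hw.w2, hw.w3, cond_true,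
    cond_false, if_true, Nat.cast_ofNat, Nat.cast_one, div_one] at h1
  rcases h1 with h1 | h1
  · left; linarith only [h1]
  · right; linarith only [h1]

theorem bd5 {v w : Fin 3 → Fin 5 → ℝ} {t : ℝ} (h : Fail v w t) (hw : Wt v w) :
    t < v 0 0 + v 0 2 + v 0 3 + v 0 4 + v 1 2 + v 1 3 + v 1 4 + v 2 2 + v 2 3 + v 2 4 ∨ t < v 0
    0 + 2 * v 0 1 + v 0 2 + v 0 3 + v 0 4 + v 1 0 + 2 * v 1 1 + v 1 2 + v 1 3 + v 1 4 - 2 * v 2
    2 - 3 * v 2 3 + v 2 4 - w 2 4 := by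
  have h1 := h.M 0 1 2 (by decide) (by decide) (by decide) 1 (by norm_num) (by norm_num)
    (ms false true false false false) (ms true true false false false)
    (ms false false true true true) (good_ms _ _ _ _ _ _ (by decide))
    (good_ms _ _ _ _ _ _ (by decide))
  simp only [cost_ms_compl, cost_ms, cost_univ, thn, hw.w0, hw.w1, hw.w2, hw.w3, cond_true,
    cond_false, if_true, Nat.cast_ofNat, Nat.cast_one, div_one] at h1
  rw [if_neg (by decide)] at h1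
  rcases h1 with h1 | h1
  · left; linarith only [h1]
  · right; linarith only [h1]

theorem bd6 {v w : Fin 3 → Fin 5 → ℝ} {t : ℝ} (h : Fail v w t) (hw : Wt v w) :
    t < v 0 2 + v 0 3 + v 0 4 + v 1 0 + v 1 2 + v 1 4 + v 2 0 + v 2 1 + v 2 2 + v 2 4 ∨ t < v 0
    0 + 2 * v 0 1 + v 0 2 + v 0 3 + v 0 4 + v 1 0 + v 1 1 + v 1 2 + 2 * v 1 3 + v 1 4 + v 2 0 +
    v 2 1 + v 2 2 + 2 * v 2 3 + v 2 4 - 1 := by
  have h1 := h.M 1 2 0 (by decide) (by decide) (by decide) 2 (by norm_num) (by norm_num)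
    (ms false true false true false) (ms false false false true false)
    (ms false false true true true) (good_ms _ _ _ _ _ _ (by decide))
    (good_ms _ _ _ _ _ _ (by decide))
  simp only [cost_ms_compl, cost_ms, cost_univ, thn, hw.w0, hw.w1, hw.w2, hw.w3, cond_true,
    cond_false, if_true, Nat.cast_ofNat, Nat.cast_one, div_one] at h1
  rcases h1 with h1 | h1
  · left; linarith only [h1]
  · right; linarith only [h1]

theorem bd7 {v w : Fin 3 → Fin 5 → ℝ} {t : ℝ} (h : Fail v w t) (hw : Wt v w) :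
    t < 1 / 2 * v 0 0 + 1 / 2 * v 0 1 + 1 / 2 * v 0 2 + 1 / 2 * v 0 3 + 1 / 2 * v 0 4 + v 1 1 +
    v 1 2 + v 1 3 + v 1 4 + 1 / 2 * v 2 0 + 1 / 2 * v 2 1 + 1 / 2 * v 2 2 + 1 / 2 * v 2 3 + 1 /
    2 * v 2 4 ∨ t < 1 / 2 * v 0 0 + 1 / 2 * v 0 1 + 1 / 2 * v 0 2 + 1 / 2 * v 0 3 + 1 / 2 * v 0
    4 - 1 / 2 * v 1 2 - v 1 3 + v 1 4 + 5 / 4 * v 2 0 + 5 / 4 * v 2 1 + 5 / 4 * v 2 2 + 5 / 4 *
    v 2 3 + 5 / 4 * v 2 4 - 1 / 2 * w 1 4 ∨ t < 5 / 4 * v 0 0 + 5 / 4 * v 0 1 + 5 / 4 * v 0 2 +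
    5 / 4 * v 0 3 + 5 / 4 * v 0 4 - 1 / 2 * v 1 2 - v 1 3 + v 1 4 + 1 / 2 * v 2 0 + 1 / 2 * v 2
    1 + 1 / 2 * v 2 2 + 1 / 2 * v 2 3 + 1 / 2 * v 2 4 - 1 / 2 * w 1 4 ∨ t < 5 / 4 * v 0 0 + 5 /
    4 * v 0 1 + 5 / 4 * v 0 2 + 5 / 4 * v 0 3 + 5 / 4 * v 0 4 - v 1 1 - 2 * v 1 2 - 3 * v 1 3 +
    v 1 4 + 5 / 4 * v 2 0 + 5 / 4 * v 2 1 + 5 / 4 * v 2 2 + 5 / 4 * v 2 3 + 5 / 4 * v 2 4 - w 1
    4 := by
  have h1 := h.S 2 0 1 (by decide) (by decide) (by decide) (ms false true true true true)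
  simp only [cost_ms, cost_univ, hw.w0, hw.w1, hw.w2, hw.w3, cond_true, cond_false] at h1
  have h2 := max2s _ _ _ _ _ _ h1
  rcases h2 with h1 | h1 | h1 | h1
  · left; linarith only [h1]
  · right; left; linarith only [h1]
  · right; right; left; linarith only [h1]
  · right; right; right; linarith only [h1]

theorem bd8 {v w : Fin 3 → Fin 5 → ℝ} {t : ℝ} (h : Fail v w t) (hw : Wt v w) :
    t < v 0 0 + v 0 1 + v 0 3 + v 0 4 + v 1 0 + v 1 1 + v 1 3 + v 1 4 + v 2 1 + v 2 2 + v 2 3 +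
    v 2 4 ∨ t < v 0 0 + v 0 1 + v 0 2 + v 0 3 + v 0 4 + v 1 0 + v 1 1 + v 1 2 + v 1 3 + v 1 4 -
    v 2 1 - 2 * v 2 2 - 3 * v 2 3 + v 2 4 - w 2 4 := by
  have h1 := h.M 0 1 2 (by decide) (by decide) (by decide) 3 (by norm_num) (by norm_num)
    (ms false false true false false) (ms false false true false false)
    (ms false true true true true) (good_ms _ _ _ _ _ _ (by decide))
    (good_ms _ _ _ _ _ _ (by decide))
  simp only [cost_ms_compl, cost_ms, cost_univ, thn, hw.w0, hw.w1, hw.w2, hw.w3, cond_true,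
    cond_false, if_true, Nat.cast_ofNat, Nat.cast_one, div_one] at h1
  rw [if_neg (by decide)] at h1
  rcases h1 with h1 | h1
  · left; linarith only [h1]
  · right; linarith only [h1]

theorem bd9 {v w : Fin 3 → Fin 5 → ℝ} {t : ℝ} (h : Fail v w t) (hw : Wt v w) :
    t < 1 / 2 * v 0 0 + 1 / 2 * v 0 1 + 1 / 2 * v 0 2 + 1 / 2 * v 0 3 + 1 / 2 * v 0 4 + v 1 2 +
    v 1 3 + v 1 4 + 1 / 2 * v 2 0 + 1 / 2 * v 2 1 + 1 / 2 * v 2 2 + 1 / 2 * v 2 3 + 1 / 2 * v 2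
    4 ∨ t < 1 / 2 * v 0 0 + 1 / 2 * v 0 1 + 1 / 2 * v 0 2 + 1 / 2 * v 0 3 + 1 / 2 * v 0 4 - 1 /
    2 * v 1 2 - v 1 3 + v 1 4 + 5 / 4 * v 2 0 + 5 / 4 * v 2 1 + 5 / 4 * v 2 2 + 5 / 4 * v 2 3 +
    5 / 4 * v 2 4 - 1 / 2 * w 1 4 ∨ t < 5 / 4 * v 0 0 + 5 / 4 * v 0 1 + 5 / 4 * v 0 2 + 5 / 4 *
    v 0 3 + 5 / 4 * v 0 4 - 1 / 2 * v 1 2 - v 1 3 + v 1 4 + 1 / 2 * v 2 0 + 1 / 2 * v 2 1 + 1 /
    2 * v 2 2 + 1 / 2 * v 2 3 + 1 / 2 * v 2 4 - 1 / 2 * w 1 4 ∨ t < 5 / 4 * v 0 0 + 5 / 4 * v 0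
    1 + 5 / 4 * v 0 2 + 5 / 4 * v 0 3 + 5 / 4 * v 0 4 - 2 * v 1 2 - 3 * v 1 3 + v 1 4 + 5 / 4 *
    v 2 0 + 5 / 4 * v 2 1 + 5 / 4 * v 2 2 + 5 / 4 * v 2 3 + 5 / 4 * v 2 4 - w 1 4 := by
  have h1 := h.S 2 0 1 (by decide) (by decide) (by decide) (ms false false true true true)
  simp only [cost_ms, cost_univ, hw.w0, hw.w1, hw.w2, hw.w3, cond_true, cond_false] at h1
  have h2 := max2s _ _ _ _ _ _ h1
  rcases h2 with h1 | h1 | h1 | h1
  · left; linarith only [h1]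
  · right; left; linarith only [h1]
  · right; right; left; linarith only [h1]
  · right; right; right; linarith only [h1]

theorem bd10 {v w : Fin 3 → Fin 5 → ℝ} {t : ℝ} (h : Fail v w t) (hw : Wt v w) :
    t < 1 / 2 * v 0 0 + 1 / 2 * v 0 1 + 1 / 2 * v 0 2 + 1 / 2 * v 0 3 + 1 / 2 * v 0 4 + 1 / 2 *
    v 1 0 + 1 / 2 * v 1 1 + 1 / 2 * v 1 2 + 1 / 2 * v 1 3 + 1 / 2 * v 1 4 + v 2 2 + v 2 3 + v 2
    4 ∨ t < 5 / 4 * v 0 0 + 5 / 4 * v 0 1 + 5 / 4 * v 0 2 + 5 / 4 * v 0 3 + 5 / 4 * v 0 4 + 1 /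
    2 * v 1 0 + 1 / 2 * v 1 1 + 1 / 2 * v 1 2 + 1 / 2 * v 1 3 + 1 / 2 * v 1 4 - 1 / 2 * v 2 2 -
    v 2 3 + v 2 4 - 1 / 2 * w 2 4 ∨ t < 1 / 2 * v 0 0 + 1 / 2 * v 0 1 + 1 / 2 * v 0 2 + 1 / 2 *
    v 0 3 + 1 / 2 * v 0 4 + 5 / 4 * v 1 0 + 5 / 4 * v 1 1 + 5 / 4 * v 1 2 + 5 / 4 * v 1 3 + 5 /
    4 * v 1 4 - 1 / 2 * v 2 2 - v 2 3 + v 2 4 - 1 / 2 * w 2 4 ∨ t < 5 / 4 * v 0 0 + 5 / 4 * v 0
    1 + 5 / 4 * v 0 2 + 5 / 4 * v 0 3 + 5 / 4 * v 0 4 + 5 / 4 * v 1 0 + 5 / 4 * v 1 1 + 5 / 4 *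
    v 1 2 + 5 / 4 * v 1 3 + 5 / 4 * v 1 4 - 2 * v 2 2 - 3 * v 2 3 + v 2 4 - w 2 4 := by
  have h1 := h.S 0 1 2 (by decide) (by decide) (by decide) (ms false false true true true)
  simp only [cost_ms, cost_univ, hw.w0, hw.w1, hw.w2, hw.w3, cond_true, cond_false] at h1
  have h2 := max2s _ _ _ _ _ _ h1
  rcases h2 with h1 | h1 | h1 | h1
  · left; linarith only [h1]
  · right; left; linarith only [h1]
  · right; right; left; linarith only [h1]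
  · right; right; right; linarith only [h1]

theorem bd11 {v w : Fin 3 → Fin 5 → ℝ} {t : ℝ} (h : Fail v w t) (hw : Wt v w) :
    t < v 0 2 + v 0 3 + v 0 4 + v 1 1 + v 1 3 + v 1 4 + v 2 1 + v 2 2 + v 2 3 + v 2 4 ∨ t < v 0
    0 + 2 * v 0 1 + v 0 2 + v 0 3 + v 0 4 + v 1 0 + v 1 1 + 3 * v 1 2 + v 1 3 + v 1 4 + v 2 0 +
    v 2 1 + v 2 2 + v 2 3 + v 2 4 - 1 := by
  have h1 := h.M 1 2 0 (by decide) (by decide) (by decide) 1 (by norm_num) (by norm_num)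
    (ms true false true false false) (ms true false false false false)
    (ms false false true true true) (good_ms _ _ _ _ _ _ (by decide))
    (good_ms _ _ _ _ _ _ (by decide))
  simp only [cost_ms_compl, cost_ms, cost_univ, thn, hw.w0, hw.w1, hw.w2, hw.w3, cond_true,
    cond_false, if_true, Nat.cast_ofNat, Nat.cast_one, div_one] at h1
  rcases h1 with h1 | h1
  · left; linarith only [h1]
  · right; linarith only [h1]

theorem bd12 {v w : Fin 3 → Fin 5 → ℝ} {t : ℝ} (h : Fail v w t) (hw : Wt v w) :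
    t < v 0 2 + v 0 3 + v 0 4 + v 1 0 + v 1 1 + v 1 2 + v 1 4 + v 2 0 + v 2 2 + v 2 3 + v 2 4 ∨
    t < v 0 0 + 2 * v 0 1 + v 0 2 + v 0 3 + v 0 4 + v 1 0 + v 1 1 + v 1 2 + 2 * v 1 3 + v 1 4 +
    v 2 0 + v 2 1 + v 2 2 + v 2 3 + v 2 4 - 1 := by
  have h1 := h.M 1 2 0 (by decide) (by decide) (by decide) 2 (by norm_num) (by norm_num)
    (ms false false false true false) (ms false true false false false)
    (ms false false true true true) (good_ms _ _ _ _ _ _ (by decide))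
    (good_ms _ _ _ _ _ _ (by decide))
  simp only [cost_ms_compl, cost_ms, cost_univ, thn, hw.w0, hw.w1, hw.w2, hw.w3, cond_true,
    cond_false, if_true, Nat.cast_ofNat, Nat.cast_one, div_one] at h1
  rcases h1 with h1 | h1
  · left; linarith only [h1]
  · right; linarith only [h1]

theorem bd13 {v w : Fin 3 → Fin 5 → ℝ} {t : ℝ} (h : Fail v w t) (hw : Wt v w) :
    t < v 0 1 + v 0 3 + v 0 4 + v 1 1 + v 1 2 + v 1 3 + v 1 4 + v 2 3 + v 2 4 ∨ t < v 0 0 + v 0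
    1 + 3 * v 0 2 + v 0 3 + v 0 4 + v 1 0 + v 1 1 + v 1 2 + v 1 3 + v 1 4 + v 2 0 + 2 * v 2 1 +
    3 * v 2 2 + v 2 3 + v 2 4 - 1 := by
  have h1 := h.M 1 2 0 (by decide) (by decide) (by decide) 1 (by norm_num) (by norm_num)
    (ms true false false false false) (ms true true true false false)
    (ms false true false true true) (good_ms _ _ _ _ _ _ (by decide))
    (good_ms _ _ _ _ _ _ (by decide))
  simp only [cost_ms_compl, cost_ms, cost_univ, thn, hw.w0, hw.w1, hw.w2, hw.w3, cond_true,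
    cond_false, if_true, Nat.cast_ofNat, Nat.cast_one, div_one] at h1
  rcases h1 with h1 | h1
  · left; linarith only [h1]
  · right; linarith only [h1]

theorem bd14 {v w : Fin 3 → Fin 5 → ℝ} {t : ℝ} (h : Fail v w t) (hw : Wt v w) :
    t < v 0 2 + v 0 3 + v 0 4 + v 1 1 + v 1 3 + v 1 4 + v 2 2 + v 2 3 + v 2 4 ∨ t < v 0 0 + 2 *
    v 0 1 + v 0 2 + v 0 3 + v 0 4 + v 1 0 + v 1 1 + 3 * v 1 2 + v 1 3 + v 1 4 - 2 * v 2 2 - 3 *
    v 2 3 + v 2 4 - w 2 4 := by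
  have h1 := h.M 0 1 2 (by decide) (by decide) (by decide) 1 (by norm_num) (by norm_num)
    (ms true true false false false) (ms true false true false false)
    (ms false false true true true) (good_ms _ _ _ _ _ _ (by decide))
    (good_ms _ _ _ _ _ _ (by decide))
  simp only [cost_ms_compl, cost_ms, cost_univ, thn, hw.w0, hw.w1, hw.w2, hw.w3, cond_true,
    cond_false, if_true, Nat.cast_ofNat, Nat.cast_one, div_one] at h1
  rw [if_neg (by decide)] at h1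
  rcases h1 with h1 | h1
  · left; linarith only [h1]
  · right; linarith only [h1]

theorem bd15 {v w : Fin 3 → Fin 5 → ℝ} {t : ℝ} (h : Fail v w t) (hw : Wt v w) :
    t < v 0 3 + v 0 4 + v 1 1 + v 1 2 + v 1 3 + v 1 4 + v 2 2 ∨ t < v 0 0 + 2 * v 0 1 + 3 * v 0
    2 + v 0 3 + v 0 4 + v 1 0 + v 1 1 + v 1 2 + v 1 3 + v 1 4 - 2 * v 2 2 := by
  have h1 := h.M 0 1 2 (by decide) (by decide) (by decide) 1 (by norm_num) (by norm_num)
    (ms true true true false false) (ms true false false false false)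
    (ms false false true false false) (good_ms _ _ _ _ _ _ (by decide))
    (good_ms _ _ _ _ _ _ (by decide))
  simp only [cost_ms_compl, cost_ms, cost_univ, thn, hw.w0, hw.w1, hw.w2, hw.w3, cond_true,
    cond_false, if_true, Nat.cast_ofNat, Nat.cast_one, div_one] at h1
  rw [if_neg (by decide)] at h1
  rcases h1 with h1 | h1
  · left; linarith only [h1]
  · right; linarith only [h1]

theorem bd16 {v w : Fin 3 → Fin 5 → ℝ} {t : ℝ} (h : Fail v w t) (hw : Wt v w) :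
    t < v 0 0 + v 0 2 + v 0 3 + v 0 4 + v 1 3 + v 1 4 + v 2 0 + v 2 2 + v 2 4 ∨ t < v 0 0 + v 0
    1 + v 0 2 + v 0 3 + v 0 4 - 3 * v 1 3 + v 1 4 + v 2 0 + v 2 1 + v 2 2 + 2 * v 2 3 + v 2 4 -
    w 1 4 := by
  have h1 := h.M 2 0 1 (by decide) (by decide) (by decide) 2 (by norm_num) (by norm_num)
    (ms false true false true false) (ms false true false false false)
    (ms false false false true true) (good_ms _ _ _ _ _ _ (by decide))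
    (good_ms _ _ _ _ _ _ (by decide))
  simp only [cost_ms_compl, cost_ms, cost_univ, thn, hw.w0, hw.w1, hw.w2, hw.w3, cond_true,
    cond_false, if_true, Nat.cast_ofNat, Nat.cast_one, div_one] at h1
  rw [if_neg (by decide)] at h1
  rcases h1 with h1 | h1
  · left; linarith only [h1]
  · right; linarith only [h1]

theorem bd17 {v w : Fin 3 → Fin 5 → ℝ} {t : ℝ} (h : Fail v w t) (hw : Wt v w) :
    t < v 0 2 + v 0 3 + v 0 4 + v 1 2 + v 1 3 + v 1 4 + v 2 3 + v 2 4 ∨ t < v 0 0 + 2 * v 0 1 +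
    v 0 2 + v 0 3 + v 0 4 - 2 * v 1 2 - 3 * v 1 3 + v 1 4 + v 2 0 + 2 * v 2 1 + 3 * v 2 2 + v 2
    3 + v 2 4 - w 1 4 := by
  have h1 := h.M 2 0 1 (by decide) (by decide) (by decide) 1 (by norm_num) (by norm_num)
    (ms true true true false false) (ms true true false false false)
    (ms false false true true true) (good_ms _ _ _ _ _ _ (by decide))
    (good_ms _ _ _ _ _ _ (by decide))
  simp only [cost_ms_compl, cost_ms, cost_univ, thn, hw.w0, hw.w1, hw.w2, hw.w3, cond_true,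
    cond_false, if_true, Nat.cast_ofNat, Nat.cast_one, div_one] at h1
  rw [if_neg (by decide)] at h1
  rcases h1 with h1 | h1
  · left; linarith only [h1]
  · right; linarith only [h1]

theorem bd18 {v w : Fin 3 → Fin 5 → ℝ} {t : ℝ} (h : Fail v w t) (hw : Wt v w) :
    t < v 1 2 + v 1 3 + v 1 4 + v 2 2 + v 2 3 + v 2 4 ∨ t < v 0 0 + 2 * v 0 1 + 3 * v 0 2 + 4 *
    v 0 3 - 2 * v 1 2 - 3 * v 1 3 + v 1 4 + v 2 0 + 2 * v 2 1 + v 2 2 + v 2 3 + v 2 4 + w 0 4 -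
    w 1 4 := by
  have h1 := h.M 2 0 1 (by decide) (by decide) (by decide) 1 (by norm_num) (by norm_num)
    (ms true true false false false) (ms true true true true true)
    (ms false false true true true) (good_ms _ _ _ _ _ _ (by decide))
    (good_ms _ _ _ _ _ _ (by decide))
  simp only [cost_ms_compl, cost_ms, cost_univ, thn, hw.w0, hw.w1, hw.w2, hw.w3, cond_true,
    cond_false, if_true, Nat.cast_ofNat, Nat.cast_one, div_one] at h1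
  rw [if_neg (by decide)] at h1
  rcases h1 with h1 | h1
  · left; linarith only [h1]
  · right; linarith only [h1]

theorem bd19 {v w : Fin 3 → Fin 5 → ℝ} {t : ℝ} (h : Fail v w t) (hw : Wt v w) :
    t < v 1 0 + v 1 1 + v 1 3 + v 1 4 + v 2 0 + v 2 1 + v 2 3 + v 2 4 ∨ t < v 0 0 + 2 * v 0 1 +
    3 * v 0 2 + 4 * v 0 3 + v 1 0 + v 1 1 + v 1 2 + v 1 3 + v 1 4 + v 2 0 + v 2 1 + v 2 2 + v 2
    3 + v 2 4 + w 0 4 - 1 := by
  have h1 := h.M 1 2 0 (by decide) (by decide) (by decide) 3 (by norm_num) (by norm_num)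
    (ms false false true false false) (ms false false true false false)
    (ms false false false false false) (good_ms _ _ _ _ _ _ (by decide))
    (good_ms _ _ _ _ _ _ (by decide))
  simp only [cost_ms_compl, cost_ms, cost_univ, thn, hw.w0, hw.w1, hw.w2, hw.w3, cond_true,
    cond_false, if_true, Nat.cast_ofNat, Nat.cast_one, div_one] at h1
  rcases h1 with h1 | h1
  · left; linarith only [h1]
  · right; linarith only [h1]

theorem bd20 {v w : Fin 3 → Fin 5 → ℝ} {t : ℝ} (h : Fail v w t) (hw : Wt v w) :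
    t < v 0 2 + v 0 3 + v 0 4 + v 1 2 + v 1 3 + v 1 4 + v 2 0 + v 2 2 + v 2 3 + v 2 4 ∨ t < v 0
    0 + 2 * v 0 1 + v 0 2 + v 0 3 + v 0 4 + v 1 0 + 2 * v 1 1 + v 1 2 + v 1 3 + v 1 4 + v 2 0 +
    2 * v 2 1 + v 2 2 + v 2 3 + v 2 4 - 1 := by
  have h1 := h.M 1 2 0 (by decide) (by decide) (by decide) 1 (by norm_num) (by norm_num)
    (ms true true false false false) (ms false true false false false)
    (ms false false true true true) (good_ms _ _ _ _ _ _ (by decide))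
    (good_ms _ _ _ _ _ _ (by decide))
  simp only [cost_ms_compl, cost_ms, cost_univ, thn, hw.w0, hw.w1, hw.w2, hw.w3, cond_true,
    cond_false, if_true, Nat.cast_ofNat, Nat.cast_one, div_one] at h1
  rcases h1 with h1 | h1
  · left; linarith only [h1]
  · right; linarith only [h1]

theorem bd21 {v w : Fin 3 → Fin 5 → ℝ} {t : ℝ} (h : Fail v w t) (hw : Wt v w) :
    t < v 0 2 + v 0 3 + v 0 4 + v 1 2 + v 1 3 + v 1 4 + v 2 2 + v 2 3 + v 2 4 ∨ t < v 0 0 + 2 *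
    v 0 1 + v 0 2 + v 0 3 + v 0 4 + v 1 0 + 2 * v 1 1 + v 1 2 + v 1 3 + v 1 4 - 2 * v 2 2 - 3 *
    v 2 3 + v 2 4 - w 2 4 := by
  have h1 := h.M 0 1 2 (by decide) (by decide) (by decide) 1 (by norm_num) (by norm_num)
    (ms true true false false false) (ms true true false false false)
    (ms false false true true true) (good_ms _ _ _ _ _ _ (by decide))
    (good_ms _ _ _ _ _ _ (by decide))
  simp only [cost_ms_compl, cost_ms, cost_univ, thn, hw.w0, hw.w1, hw.w2, hw.w3, cond_true,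
    cond_false, if_true, Nat.cast_ofNat, Nat.cast_one, div_one] at h1
  rw [if_neg (by decide)] at h1
  rcases h1 with h1 | h1
  · left; linarith only [h1]
  · right; linarith only [h1]

theorem bd22 {v w : Fin 3 → Fin 5 → ℝ} {t : ℝ} (h : Fail v w t) (hw : Wt v w) :
    t < v 0 1 + v 0 2 + v 0 3 + v 0 4 + v 1 2 + v 1 3 + v 1 4 + v 2 1 + v 2 2 + v 2 3 + v 2 4 ∨
    t < v 0 0 + v 0 1 + v 0 2 + v 0 3 + v 0 4 + v 1 0 + 2 * v 1 1 + v 1 2 + v 1 3 + v 1 4 - v 2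
    1 - 2 * v 2 2 - 3 * v 2 3 + v 2 4 - w 2 4 := by
  have h1 := h.M 0 1 2 (by decide) (by decide) (by decide) 1 (by norm_num) (by norm_num)
    (ms true false false false false) (ms true true false false false)
    (ms false true true true true) (good_ms _ _ _ _ _ _ (by decide))
    (good_ms _ _ _ _ _ _ (by decide))
  simp only [cost_ms_compl, cost_ms, cost_univ, thn, hw.w0, hw.w1, hw.w2, hw.w3, cond_true,
    cond_false, if_true, Nat.cast_ofNat, Nat.cast_one, div_one] at h1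
  rw [if_neg (by decide)] at h1
  rcases h1 with h1 | h1
  · left; linarith only [h1]
  · right; linarith only [h1]

theorem bd23 {v w : Fin 3 → Fin 5 → ℝ} {t : ℝ} (h : Fail v w t) (hw : Wt v w) :
    t < v 0 1 + v 0 2 + v 0 3 + v 0 4 + v 1 0 + v 1 2 + v 1 3 + v 1 4 + v 2 2 + v 2 3 + v 2 4 ∨
    t < v 0 0 + v 0 1 + v 0 2 + v 0 3 + v 0 4 - 2 * v 1 2 - 3 * v 1 3 + v 1 4 + v 2 0 + 2 * v 2
    1 + v 2 2 + v 2 3 + v 2 4 - w 1 4 := by
  have h1 := h.M 2 0 1 (by decide) (by decide) (by decide) 1 (by norm_num) (by norm_num)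
    (ms true true false false false) (ms true false false false false)
    (ms true false true true true) (good_ms _ _ _ _ _ _ (by decide))
    (good_ms _ _ _ _ _ _ (by decide))
  simp only [cost_ms_compl, cost_ms, cost_univ, thn, hw.w0, hw.w1, hw.w2, hw.w3, cond_true,
    cond_false, if_true, Nat.cast_ofNat, Nat.cast_one, div_one] at h1
  rw [if_neg (by decide)] at h1
  rcases h1 with h1 | h1
  · left; linarith only [h1]
  · right; linarith only [h1]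

theorem bd24 {v w : Fin 3 → Fin 5 → ℝ} {t : ℝ} (h : Fail v w t) (hw : Wt v w) :
    t < v 0 1 + v 0 2 + v 0 3 + v 0 4 + v 1 2 + v 1 3 + v 1 4 + v 2 2 + v 2 3 + v 2 4 ∨ t < v 0
    0 + v 0 1 + v 0 2 + v 0 3 + v 0 4 + v 1 0 + 2 * v 1 1 + v 1 2 + v 1 3 + v 1 4 - 2 * v 2 2 -
    3 * v 2 3 + v 2 4 - w 2 4 := by
  have h1 := h.M 0 1 2 (by decide) (by decide) (by decide) 1 (by norm_num) (by norm_num)
    (ms true false false false false) (ms true true false false false)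
    (ms false false true true true) (good_ms _ _ _ _ _ _ (by decide))
    (good_ms _ _ _ _ _ _ (by decide))
  simp only [cost_ms_compl, cost_ms, cost_univ, thn, hw.w0, hw.w1, hw.w2, hw.w3, cond_true,
    cond_false, if_true, Nat.cast_ofNat, Nat.cast_one, div_one] at h1
  rw [if_neg (by decide)] at h1
  rcases h1 with h1 | h1
  · left; linarith only [h1]
  · right; linarith only [h1]

theorem facts_of {v w : Fin 3 → Fin 5 → ℝ} {t : ℝ} (h : Fail v w t) (hw : Wt v w) :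
    Facts (v 0 0) (v 0 1) (v 0 2) (v 0 3) (v 0 4) (v 1 0) (v 1 1) (v 1 2) (v 1 3) (v 1 4) (v 2 0) (v 2 1) (v 2 2) (v 2 3) (v 2 4) (w 0 4) (w 1 4) (w 2 4) t :=
    ⟨bd0 h hw, bd1 h hw, bd2 h hw, bd3 h hw, bd4 h hw, bd5 h hw, bd6 h hw, bd7 h hw, bd8 h hw,
    bd9 h hw, bd10 h hw, bd11 h hw, bd12 h hw, bd13 h hw, bd14 h hw, bd15 h hw, bd16 h hw, bd17
    h hw, bd18 h hw, bd19 h hw, bd20 h hw, bd21 h hw, bd22 h hw, bd23 h hw, bd24 h hw⟩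

end Pool.Agent.H705R2.LW
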