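import Mathlib
import Pool.Agent.H705R2.LW.Bd

/-!
# the certificate for the exponent 1/2 (generated), part 0
-/

set_option linter.unusedVariables false

namespace Pool.Agent.H705R2.LW

/-- the constraints on the exponents -/
structure BaseC (a0 a1 a2 a3 a4 b0 b1 b2 b3 b4 c0 c1 c2 c3 c4 ya yb yc d : ℝ) : Prop where
  B0 :
    a0 + 2 * a1 + 3 * a2 + 4 * a3 + b0 + b1 + b2 + b3 + b4 + c0 + c1 + c2 + c3 + c4 + ya ≤ 1
  B1 :
    a0 + 2 * a1 + 3 * a2 + 4 * a3 + ya ≤ 1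
  B2 :
    b0 + 2 * b1 + 3 * b2 + 4 * b3 + yb ≤ 1
  B3 :
    1 - d ≤ b0 + 2 * b1 + 3 * b2 + 4 * b3 + yb
  B4 :
    c0 + 2 * c1 + 3 * c2 + 4 * c3 + yc ≤ 1
  B5 :
    1 - d ≤ c0 + 2 * c1 + 3 * c2 + 4 * c3 + yc
  B6 :
    5 * a4 ≤ ya
  B7 :
    5 * b4 ≤ yb
  B8 :
    5 * c4 ≤ yc
  B9 :
    c0 + c1 + c2 + c3 + c4 ≤ b0 + b1 + b2 + b3 + b4
  pa0 : 0 ≤ a0
  pa1 : 0 ≤ a1
  pa2 : 0 ≤ a2
  pa3 : 0 ≤ a3
  pa4 : 0 ≤ a4
  pb0 : 0 ≤ b0
  pb1 : 0 ≤ b1
  pb2 : 0 ≤ b2
  pb3 : 0 ≤ b3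
  pb4 : 0 ≤ b4
  pc0 : 0 ≤ c0
  pc1 : 0 ≤ c1
  pc2 : 0 ≤ c2
  pc3 : 0 ≤ c3
  pc4 : 0 ≤ c4
  pya : 0 ≤ ya
  pyb : 0 ≤ yb
  pyc : 0 ≤ yc

theorem sub0 (a0 a1 a2 a3 a4 b0 b1 b2 b3 b4 c0 c1 c2 c3 c4 ya yb yc t d : ℝ)
    (H : Facts a0 a1 a2 a3 a4 b0 b1 b2 b3 b4 c0 c1 c2 c3 c4 ya yb yc t)
    (HB : BaseC a0 a1 a2 a3 a4 b0 b1 b2 b3 b4 c0 c1 c2 c3 c4 ya yb yc d)
    (hd : 0 ≤ d) (ht : t = 1 / 2 + 1000 * d)
    (n0 : t < a0 + a1 + a2 + a3 + a4 + b0 + b2 + b3 + b4 + c2 + c3 + c4)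
    (n1 : t < a1 + a2 + a3 + a4 + b1 + b2 + b3 + b4 + c2 + c3 + c4)
    (n2 : t < a1 + a2 + a3 + a4 + b0 + b1 + b3 + b4 + c0 + c1 + c3 + c4)
    (n3 : t < a0 + a1 + a2 + a3 + a4 + b2 + b3 + b4 + c0 + c1 + c3 + c4)
    (n4 : t < a2 + a3 + a4 + b0 + b2 + b3 + b4 + c1 + c2 + c3 + c4) : False := by
  obtain ⟨B0, B1, B2, B3, B4, B5, B6, B7, B8, B9, pa0, pa1, pa2, pa3, pa4, pb0, pb1, pb2, pb3, pb4, pc0, pc1, pc2, pc3, pc4, pya, pyb, pyc⟩ := id HB
  rcases H.f5 with n5 | n5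
  · rcases H.f6 with n6 | n6
    · rcases H.f7 with n7 | n7 | n7 | n7
      · rcases H.f8 with n8 | n8
        · rcases H.f9 with n9 | n9 | n9 | n9
          · rcases H.f10 with n10 | n10 | n10 | n10
            · rcases H.f11 with n11 | n11
              · rcases H.f12 with n12 | n12
                · rcases H.f13 with n13 | n13
                  · linarith only [n2, n6, n9, n10, n11, n13, B0, B2, B4, B6, B7, B8, pa2, pa3, pya, hd, ht]
                  · rcases H.f14 with n14 | n14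
                    · rcases H.f15 with n15 | n15
                      · linarith only [n2, n9, n15, B0, B2, B6, B7, B9, pa2, pa3, pya, pyb, hd, ht]
                      · linarith only [n4, n9, n10, n12, n13, n14, n15, B0, B2, B6, B7, pa1, pa3, pc0, pya, hd, ht]
                    · rcases H.f16 with n15 | n15
                      · linarith only [n1, n2, n10, n11, n13, n14, n15, B0, B2, B5, B6, B7, B8, pa1, pa2, pa3, pc3, pya, pyb, hd, ht]
                      · linarith only [n1, n2, n9, n10, n11, n13, n15, B0, B2, B4, B6, B7, B8, pa1, pa2, pa3, pya, pyb, pyc, hd, ht]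
                · linarith only [n12, B0, B2, B6, pa2, pa3, pb0, pb1, pb2, pya, pyb, hd, ht]
              · rcases H.f17 with n12 | n12
                · rcases H.f18 with n13 | n13
                  · rcases H.f19 with n14 | n14
                    · linarith only [n13, n14, B2, B4, B7, B8, pb1, pc1, pyb, pyc, hd, ht]
                    · linarith only [n14, B0, hd, ht]
                  · linarith only [n10, n11, n12, n13, B0, B3, B4, B6, B7, B8, pa1, pa3, pb0, pb3, pc0, pc2, pya, pyb, pyc, hd, ht]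
                · linarith only [n2, n7, n10, n11, n12, B0, B2, B4, B6, B7, B8, pa0, pa2, pa3, pb3, pya, pyb, pyc, hd, ht]
            · linarith only [n1, n2, n4, n6, n10, B0, B2, B5, B6, B7, B8, B9, pa1, pa2, pa3, pb2, pb3, pc0, pya, hd, ht]
            · rcases H.f20 with n11 | n11
              · rcases H.f21 with n12 | n12
                · linarith only [n1, n2, n7, n9, n10, n12, B0, B2, B4, B6, B7, B8, pa3, pb3, pc1, pya, pyb, pyc, hd, ht]
                · linarith only [n9, n11, n12, B0, B2, B5, B6, B7, B9, pa1, pa2, pa3, pb0, pb3, pya, pyb, hd, ht]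
              · linarith only [n0, n11, B0, B6, pa1, pa2, pa3, pc0, pya, hd, ht]
            · linarith only [n0, n1, n5, n10, B0, B2, B5, B6, B7, B9, pa1, pa2, pa3, pb3, pc0, pya, pyb, hd, ht]
          · rcases H.f22 with n10 | n10
            · rcases H.f23 with n11 | n11
              · rcases H.f24 with n12 | n12
                · linarith only [n2, n5, n8, n9, n10, n12, B0, B4, B6, B7, B8, B9, pa2, pa3, pya, pyb, pyc, hd, ht]
                · linarith only [n5, n11, n12, B0, B2, B5, B6, B7, B8, pa1, pa2, pa3, pb3, pc0, pc3, pya, pyb, pyc, hd, ht]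
              · linarith only [n0, n11, B0, B3, B6, pa1, pa2, pa3, pc0, pya, hd, ht]
            · linarith only [n0, n3, n4, n5, n6, n10, B0, B2, B5, B6, B7, B8, pa1, pa2, pa3, pb3, pc0, pya, pyb, hd, ht]
          · linarith only [n1, n2, n4, n6, n9, B0, B3, B4, B6, B7, B8, pa1, pa2, pa3, pb0, pc0, pc2, pc3, pya, hd, ht]
          · linarith only [n0, n3, n4, n6, n9, B0, B3, B4, B6, B7, B8, pa1, pa2, pa3, pb0, pb3, pc0, pya, pyb, hd, ht]
        · linarith only [n8, B0, B5, B6, pa1, pa2, pa3, pya, hd, ht]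
      · rcases H.f22 with n8 | n8
        · rcases H.f23 with n9 | n9
          · rcases H.f24 with n10 | n10
            · linarith only [n1, n2, n5, n7, n8, n10, B0, B2, B4, B6, B7, B8, B9, pa2, pa3, pb3, pya, pyb, pyc, hd, ht]
            · linarith only [n5, n9, n10, B0, B2, B5, B6, B7, B8, pa1, pa2, pa3, pb3, pc0, pc3, pya, pyb, pyc, hd, ht]
          · linarith only [n0, n9, B0, B3, B6, pa1, pa2, pa3, pc0, pya, hd, ht]
        · linarith only [n0, n3, n4, n5, n6, n8, B0, B2, B5, B6, B7, B8, pa1, pa2, pa3, pb3, pc0, pya, pyb, hd, ht]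
      · linarith only [n1, n2, n4, n6, n7, B0, B3, B4, B6, B7, B8, pa1, pa2, pa3, pb0, pc0, pc2, pc3, pya, hd, ht]
      · linarith only [n1, n7, B0, B3, B6, B9, pa1, pa2, pa3, pb0, pc0, pc1, pya, hd, ht]
    · linarith only [n6, B0, B2, B4, B6, pa2, pa3, pb0, pb1, pb2, pc0, pc1, pc2, pya, pyb, pyc, hd, ht]
  · linarith only [n0, n5, B0, B5, B6, pa1, pa2, pa3, pc0, pya, hd, ht]

theorem no_fail_coords (a0 a1 a2 a3 a4 b0 b1 b2 b3 b4 c0 c1 c2 c3 c4 ya yb yc t d : ℝ)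
    (H : Facts a0 a1 a2 a3 a4 b0 b1 b2 b3 b4 c0 c1 c2 c3 c4 ya yb yc t)
    (HB : BaseC a0 a1 a2 a3 a4 b0 b1 b2 b3 b4 c0 c1 c2 c3 c4 ya yb yc d)
    (hd : 0 ≤ d) (ht : t = 1 / 2 + 1000 * d) : False := by
  obtain ⟨B0, B1, B2, B3, B4, B5, B6, B7, B8, B9, pa0, pa1, pa2, pa3, pa4, pb0, pb1, pb2, pb3, pb4, pc0, pc1, pc2, pc3, pc4, pya, pyb, pyc⟩ := id HB
  rcases H.f0 with n0 | n0
  · rcases H.f1 with n1 | n1
    · rcases H.f2 with n2 | n2
      · rcases H.f3 with n3 | n3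
        · rcases H.f4 with n4 | n4
          · exact sub0 a0 a1 a2 a3 a4 b0 b1 b2 b3 b4 c0 c1 c2 c3 c4 ya yb yc t d H HB hd ht n0 n1 n2 n3 n4
          · linarith only [n4, B0, B2, B6, pa2, pa3, pb0, pb2, pb3, pya, pyb, hd, ht]
        · linarith only [n0, n3, B0, B3, B6, pa1, pa2, pa3, pc0, pc1, pya, hd, ht]
      · linarith only [n2, B0, B6, pa1, pa2, pa3, pya, hd, ht]
    · linarith only [n1, B0, B4, B6, pa1, pa2, pa3, pc0, pc2, pc3, pya, pyc, hd, ht]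
  · linarith only [n0, B0, B5, B6, pa1, pa2, pa3, pc0, pc2, pc3, pya, pyc, hd, ht]

end Pool.Agent.H705R2.LW
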