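import Mathlib
import Pool.Agent.H705R2.ABC2.Cells
import Pool.Agent.H705R2.ABC2.Fin2

/-!
# abc-triples with a general property `Q`: bound for cells and final count
-/

namespace Pool.Agent.H705R2.LW

open Finset Pool.Agent.H785R2.ABC Pool.Agent.H785R2.ABC.Bridge Pool.Agent.H705R2.ABC
  Pool.Agent.H705R2.ABC2

/-- a bound for all cells of triples with the property `Q` -/
def CellBnd (Q : ℕ × ℕ × ℕ → Prop) (θ : ℝ) : Prop :=
  ∀ ε : ℝ, 0 < ε → ∃ (K : ℕ) (D : ℝ), 0 < D ∧ ∀ T : Finset (ℕ × ℕ × ℕ),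
    Cell K T → Cell 4 T → (∀ s ∈ T, Q s) → ∀ s ∈ T, (T.card : ℝ) ≤ D * (s.2.2 : ℝ) ^ (θ + ε)

theorem cell_gen (hF : Basics) (hP : StmtPoly) (hM : StmtMcell) (hE : StmtEst)
    (hD : StmtDc) (lam θ : ℝ) (Q : ℕ × ℕ × ℕ → Prop)
    (Ext : (Fin 3 → Fin 5 → ℝ) → (Fin 3 → Fin 5 → ℝ) → Prop)
    (hQ : ∀ s : ℕ × ℕ × ℕ, IsABCTriple s.1 s.2.1 s.2.2 → s.1 ≤ s.2.1 → Q s →
      (rad (s.1 * s.2.1 * s.2.2) : ℝ) ≤ (s.2.2 : ℝ) ^ lam ∧ Ext (expV 4 s) (expW 4 s))
    (hno : ∀ δ : ℝ, 0 ≤ δ → ∀ v w : Fin 3 → Fin 5 → ℝ, Poly 4 lam δ v w → Ext v w →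
      Fail v w (θ + 1000 * δ) → False) : CellBnd Q θ := by
  intro ε hε
  set K : ℕ := max 4 ⌈2 / ε⌉₊ with hK
  have hK4 : 4 ≤ K := le_max_left _ _
  have hKε : 1 / ((K : ℝ) + 1) ≤ ε / 2 := by
    have h1 : 2 / ε ≤ (K : ℝ) := (Nat.le_ceil _).trans (by exact_mod_cast le_max_right _ _)
    rw [div_le_iff₀ hε] at h1
    rw [div_le_div_iff₀ (by positivity) (by norm_num)]
    nlinarith
  obtain ⟨D₁, hD₁, H₁⟩ := hM 4 (ε / 2) (by positivity)
  obtain ⟨D₂, hD₂, H₂⟩ := hE K (ε / 2) (by positivity)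
  obtain ⟨D₃, hD₃, H₃⟩ := hD 4 (ε / 2) (by positivity)
  refine ⟨K, 2 * (D₁ + D₂ + D₃) * Real.exp (1000 * Real.log 2), by positivity, ?_⟩
  intro T hT hT4 hrad' s hs
  have hrad : ∀ s ∈ T, (rad (s.1 * s.2.1 * s.2.2) : ℝ) ≤ (s.2.2 : ℝ) ^ lam := fun s hs =>
    (hQ s (hT.abc s hs) (hT.le s hs) (hrad' s hs)).1
  have hext := (hQ s (hT.abc s hs) (hT.le s hs) (hrad' s hs)).2
  have h := hT.abc s hs
  have hc2 : (2 : ℝ) ≤ s.2.2 := by exact_mod_cast two_le_c h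
  have hc : (0 : ℝ) < s.2.2 := by linarith
  have hc1 : (1 : ℝ) ≤ s.2.2 := by linarith
  have hlog : 0 < Real.log s.2.2 := Real.log_pos (by linarith)
  have hpoly := hP 4 lam s h (hT.le s hs) (hrad s hs)
  have hpolyK := hP K lam s h (hT.le s hs) (hrad s hs)
  have hδ : 0 ≤ Real.log 2 / Real.log s.2.2 :=
    div_nonneg (Real.log_nonneg (by norm_num)) hlog.le
  set δ : ℝ := Real.log 2 / Real.log s.2.2 with hδd
  by_contra hcon
  push Not at hcon
  have hEx : 0 < Real.exp (1000 * Real.log 2) := Real.exp_pos _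
  set B : ℝ := Real.exp (1000 * Real.log 2) * (s.2.2 : ℝ) ^ (θ + ε / 2) with hB
  have hB0 : 0 < B := mul_pos hEx (Real.rpow_pos_of_pos hc _)
  have hpw : ∀ y : ℝ, y ≤ θ + 1000 * δ + ε / 2 → (s.2.2 : ℝ) ^ y ≤ B := by
    intro y hy
    calc (s.2.2 : ℝ) ^ y ≤ (s.2.2 : ℝ) ^ ((θ + ε / 2) + 1000 * δ) :=
          Real.rpow_le_rpow_of_exponent_le hc1 (by linarith)
      _ = B := by
          rw [Real.rpow_add hc, mul_comm, hB]
          congr 1
          rw [Real.rpow_def_of_pos hc]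
          congr 1
          rw [hδd]
          field_simp
  have hcε : 0 < (s.2.2 : ℝ) ^ (ε / 2) := Real.rpow_pos_of_pos hc _
  have hfin : ∀ D : ℝ, 0 < D → D ≤ D₁ + D₂ + D₃ → ∀ y : ℝ, y ≤ 2 * B →
      (T.card : ℝ) ≤ D * (s.2.2 : ℝ) ^ (ε / 2) * y → False := by
    intro D hD0 hDle y hy hcard
    have h1 : (T.card : ℝ) ≤ 2 * (D₁ + D₂ + D₃) * Real.exp (1000 * Real.log 2) *
        (s.2.2 : ℝ) ^ (θ + ε) := by
      calc (T.card : ℝ) ≤ D * (s.2.2 : ℝ) ^ (ε / 2) * y := hcard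
        _ ≤ D * (s.2.2 : ℝ) ^ (ε / 2) * (2 * B) :=
            mul_le_mul_of_nonneg_left hy (by positivity)
        _ ≤ (D₁ + D₂ + D₃) * (s.2.2 : ℝ) ^ (ε / 2) * (2 * B) := by
            apply mul_le_mul_of_nonneg_right _ (by positivity)
            exact mul_le_mul_of_nonneg_right hDle hcε.le
        _ = 2 * (D₁ + D₂ + D₃) * Real.exp (1000 * Real.log 2) *
          (s.2.2 : ℝ) ^ (θ + ε) := by
            have e : (s.2.2 : ℝ) ^ (θ + ε) =
                (s.2.2 : ℝ) ^ (ε / 2) * (s.2.2 : ℝ) ^ (θ + ε / 2) := by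
              rw [← Real.rpow_add hc]
              congr 1
              ring
            rw [e, hB]
            ring
    linarith
  refine hno δ hδ (expV 4 s) (expW 4 s) hpoly hext ⟨?_, ?_, ?_⟩
  · intro p q r h1 h2 h3 k hk1 hk2 Sp Sq F hp hq
    by_contra hc'
    push Not at hc'
    obtain ⟨b1, b2⟩ := hc'
    refine hfin D₁ hD₁ (by linarith) _ ?_
      ((H₁ T hT4 s hs p q r h1 h2 h3 k hk1 hk2 Sp Sq F hp hq).trans (le_of_eq (mul_assoc _ _ _)))
    rw [rd_eq hF 4 h, rd_eq hF 4 h, rd_eq hF 4 h, part_eq hF 4 h, part_eq hF 4 h, part_eq hF 4 h,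
      th_eq hF 4 h, ← Real.rpow_add hc, ← Real.rpow_add hc, ← Real.rpow_add hc,
      ← Real.rpow_mul hc.le, ← Real.rpow_add hc, ← Real.rpow_sub hc, mul_add, mul_one,
      ← Real.rpow_add hc]
    have c1 := hpw _ (b1.trans (by linarith))
    have c2 := hpw (cost (expV 4 s) p Spᶜ + cost (expV 4 s) q Sqᶜ + cost (expV 4 s) r F +
      (-thn (expW 4 s) r + (cost (expW 4 s) p Sp + cost (expW 4 s) q Sq) * (1 / (k : ℝ)) -
        cost (expW 4 s) r F)) (by
          have : (cost (expW 4 s) p Sp + cost (expW 4 s) q Sq) * (1 / (k : ℝ)) =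
            (cost (expW 4 s) p Sp + cost (expW 4 s) q Sq) / k := by ring
          rw [this]
          linarith)
    linarith
  · intro p q r h1 h2 h3 F
    by_contra hc'
    push Not at hc'
    have hbound := H₂ T hT s hs p q r h1 h2 h3 (lift K F)
    rw [mul_assoc (D₂ * (s.2.2 : ℝ) ^ (ε / 2))] at hbound
    refine hfin D₂ hD₂ (by linarith) _ ?_ hbound
    have hs1 := Cel.side_le hF K h r p (lift K F)
    have hs2 := Cel.side_le hF K h r q (lift K F)
    rw [← lift_univ K, costV_lift hF K hK4 h, costW_lift hF K hK4 h] at hs1 hs2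
    have hlp := NumM.last_le lam δ (expV K s) (expW K s) hpolyK p
    have hlq := NumM.last_le lam δ (expV K s) (expW K s) hpolyK q
    set ap : ℝ := cost (expV 4 s) p univ + expV K s p (Fin.last K) +
      max 0 (3 / 2 * cost (expV 4 s) p univ - cost (expW 4 s) r F) with hap
    set aq : ℝ := cost (expV 4 s) q univ + expV K s q (Fin.last K) +
      max 0 (3 / 2 * cost (expV 4 s) q univ - cost (expW 4 s) r F) with haq
    have e1 : (side K s r p (lift K F) * side K s r q (lift K F)) ^ ((1 : ℝ) / 2) ≤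
        2 * (s.2.2 : ℝ) ^ ((1 / 2) * (ap + aq)) := by
      calc (side K s r p (lift K F) * side K s r q (lift K F)) ^ ((1 : ℝ) / 2) ≤
          ((2 * (s.2.2 : ℝ) ^ ap) * (2 * (s.2.2 : ℝ) ^ aq)) ^ ((1 : ℝ) / 2) := by
            apply Real.rpow_le_rpow
              (mul_nonneg (Cel.side_nonneg _ _ _ _ _) (Cel.side_nonneg _ _ _ _ _)) _ (by norm_num)
            exact mul_le_mul hs1 hs2 (Cel.side_nonneg _ _ _ _ _) (by positivity)
        _ = (2 ^ 2 * (s.2.2 : ℝ) ^ (ap + aq)) ^ ((1 : ℝ) / 2) := by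
            rw [Real.rpow_add hc ap aq]
            congr 1
            ring
        _ = 2 * (s.2.2 : ℝ) ^ ((1 / 2) * (ap + aq)) := by
            have e4 : ((2 : ℝ) ^ 2) ^ ((1 : ℝ) / 2) = 2 := by
              rw [← Real.sqrt_eq_rpow, Real.sqrt_sq (by norm_num)]
            rw [Real.mul_rpow (by positivity) (by positivity), ← Real.rpow_mul hc.le, e4,
              mul_comm (ap + aq)]
    have e2 : (rd K (num s r) (lift K F) : ℝ) = (s.2.2 : ℝ) ^ cost (expV 4 s) r F := by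
      rw [rd_lift K hK4, rd_eq hF 4 h]
    rw [e2]
    calc (s.2.2 : ℝ) ^ cost (expV 4 s) r F *
          (side K s r p (lift K F) * side K s r q (lift K F)) ^ ((1 : ℝ) / 2)
        ≤ (s.2.2 : ℝ) ^ cost (expV 4 s) r F * (2 * (s.2.2 : ℝ) ^ ((1 / 2) * (ap + aq))) :=
          mul_le_mul_of_nonneg_left e1 (Real.rpow_nonneg hc.le _)
      _ = 2 * (s.2.2 : ℝ) ^ (cost (expV 4 s) r F + (1 / 2) * (ap + aq)) := by
          rw [Real.rpow_add hc]
          ring
      _ ≤ 2 * B := by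
          apply mul_le_mul_of_nonneg_left _ (by norm_num)
          apply hpw
          rw [hap, haq]
          linarith
  · intro p q r h1 h2 h3 i hi1 hi2
    by_contra hc'
    push Not at hc'
    obtain ⟨b1, b2⟩ := hc'
    refine hfin D₃ hD₃ (by linarith) _ ?_ (H₃ T hT4 s hs p q r h1 h2 h3 i hi1 hi2)
    rw [rd_eq hF 4 h, rd_eq hF 4 h, rd_eq hF 4 h, ← Real.rpow_add hc, ← Real.rpow_mul hc.le,
      ← Real.rpow_add hc]
    have c1 := hpw _ (b1.trans (by linarith))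
    have c2 := hpw ((cost (expV 4 s) p {i}ᶜ + cost (expV 4 s) q univ) * (1 / 2) +
      cost (expV 4 s) r univ) (by linarith)
    linarith

open Pool.Agent.H785R2.ABC.Fin1 in
/-- one cell -/
lemma cell_card (hF : Basics) (Q : ℕ × ℕ × ℕ → Prop) (θ : ℝ) (hθ : 0 ≤ θ) (h : CellBnd Q θ)
    (ε : ℝ) (hε : 0 < ε) :
    ∃ (K : ℕ) (D : ℝ), 0 < D ∧ ∀ X : ℕ, 1 ≤ X → ∀ T : Finset (ℕ × ℕ × ℕ),
      (∀ s ∈ T, IsABCTriple s.1 s.2.1 s.2.2 ∧ s.2.2 ≤ X ∧ Q s ∧ s.1 ≤ s.2.1) →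
      (∀ s ∈ T, ∀ s' ∈ T, sg K s = sg K s') → (∀ s ∈ T, ∀ s' ∈ T, sg 4 s = sg 4 s') →
      (T.card : ℝ) ≤ D * (X : ℝ) ^ (θ + ε) := by
  obtain ⟨K, D, hD, hc⟩ := h ε hε
  refine ⟨K, D, hD, ?_⟩
  intro X hX T hT hsg hsg4
  rcases T.eq_empty_or_nonempty with h0 | ⟨s, hs⟩
  · subst h0
    simp only [card_empty, Nat.cast_zero]
    positivity
  · have hcell := cell_of hF K T (fun s hs => (hT s hs).1) (fun s hs => (hT s hs).2.2.2) hsg
    have hcell4 := cell_of hF 4 T (fun s hs => (hT s hs).1) (fun s hs => (hT s hs).2.2.2) hsg4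
    refine (hc T hcell hcell4 (fun s hs => (hT s hs).2.2.1) s hs).trans ?_
    refine mul_le_mul_of_nonneg_left ?_ hD.le
    exact Real.rpow_le_rpow (Nat.cast_nonneg _) (by exact_mod_cast (hT s hs).2.1) (by linarith)

open Pool.Agent.H785R2.ABC.Fin1 in
theorem count_gen (hF : Basics) (Q : ℕ × ℕ × ℕ → Prop) (θ : ℝ) (hθ : 0 ≤ θ) (h : CellBnd Q θ) :
    ∀ ε : ℝ, 0 < ε → ∃ C : ℝ, 0 < C ∧ ∀ X : ℕ, 1 ≤ X → ∀ A1 : Finset (ℕ × ℕ × ℕ),
      (∀ s ∈ A1, IsABCTriple s.1 s.2.1 s.2.2 ∧ s.2.2 ≤ X ∧ Q s ∧ s.1 ≤ s.2.1) →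
      (A1.card : ℝ) ≤ C * (X : ℝ) ^ (θ + ε) := by
  classical
  intro ε hε
  obtain ⟨K, D, hD, hcell⟩ := cell_card hF Q θ hθ h (ε / 2) (by positivity)
  set m : ℕ := 2 * ((K + 1) * 3) + 2 * ((4 + 1) * 3) with hm
  have hmpos : (0 : ℝ) < m := by
    rw [hm]; positivity
  set η : ℝ := ε / 2 / m with hη
  have hηpos : 0 < η := by rw [hη]; positivity
  refine ⟨(1 + 2 / η) ^ m * D, by positivity, ?_⟩
  intro X hX A1 hAm
  have hX' : (1 : ℝ) ≤ X := by exact_mod_cast hX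
  have hXp : (0 : ℝ) < X := by linarith
  set L := Nat.log 2 X with hL
  -- signatures
  have hsgle : ∀ K : ℕ, ∀ t ∈ A1, ∀ j i, (sg K t j i).1 ≤ L ∧ (sg K t j i).2 ≤ L := by
    intro K t ht j i
    obtain ⟨h1, h2, _⟩ := hAm t ht
    have hn := Fin1.num_pos h1 j
    have hnX : num t j ≤ X := (num_le h1 j).trans h2
    constructor
    · change Nat.log 2 (rd K (num t j) {i}) ≤ Nat.log 2 X
      apply Nat.log_mono_right
      have e1 : rd K (num t j) {i} ∣ rad (num t j) := by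
        rw [← hF.rd_univ K (num t j)]
        exact hF.rd_dvd K _ _ _ (subset_univ _)
      have e2 : rad (num t j) ∣ num t j := Nat.prod_primeFactors_dvd _
      exact (Nat.le_of_dvd hn (e1.trans e2)).trans hnX
    · change Nat.log 2 (part K (num t j) {i}) ≤ Nat.log 2 X
      apply Nat.log_mono_right
      exact (Nat.le_of_dvd hn (hF.part_dvd K _ _ hn)).trans hnX
  set sgF : (K : ℕ) → (ℕ × ℕ × ℕ) → (Fin 3 → Fin (K + 1) → Fin (L + 1) × Fin (L + 1)) :=
    fun K t j i => (Fin.ofNat (L + 1) (sg K t j i).1, Fin.ofNat (L + 1) (sg K t j i).2) with hsgF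
  have hinj : ∀ K : ℕ, ∀ t ∈ A1, ∀ t' ∈ A1, sgF K t = sgF K t' → sg K t = sg K t' := by
    intro K t ht t' ht' h
    funext j i
    have h1 := congrFun (congrFun h j) i
    simp only [hsgF, Prod.mk.injEq] at h1
    have a1 := hsgle K t ht j i
    have a2 := hsgle K t' ht' j i
    have b1 := congrArg Fin.val h1.1
    have b2 := congrArg Fin.val h1.2
    simp only [Fin.ofNat] at b1 b2
    rw [Nat.mod_eq_of_lt (by omega), Nat.mod_eq_of_lt (by omega)] at b1 b2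
    exact Prod.ext b1 b2
  have hA1card : (A1.card : ℝ) ≤ ((L + 1 : ℕ) : ℝ) ^ m * (D * (X : ℝ) ^ (θ + ε / 2)) := by
    have h1 := card_eq_sum_card_fiberwise (f := fun t => (sgF K t, sgF 4 t)) (s := A1) (t := univ)
      (fun _ _ => mem_coe.2 (mem_univ _))
    rw [h1]
    push_cast
    calc ∑ σ : (Fin 3 → Fin (K + 1) → Fin (L + 1) × Fin (L + 1)) ×
            (Fin 3 → Fin (4 + 1) → Fin (L + 1) × Fin (L + 1)),
          ((A1.filter (fun t => (sgF K t, sgF 4 t) = σ)).card : ℝ)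
        ≤ ∑ σ : (Fin 3 → Fin (K + 1) → Fin (L + 1) × Fin (L + 1)) ×
            (Fin 3 → Fin (4 + 1) → Fin (L + 1) × Fin (L + 1)), D * (X : ℝ) ^ (θ + ε / 2) := by
          apply sum_le_sum
          intro σ _
          apply hcell X hX
          · intro s hs
            rw [mem_filter] at hs
            exact hAm s hs.1
          · intro s hs s' hs'
            rw [mem_filter] at hs hs'
            exact hinj K s hs.1 s' hs'.1 (congrArg Prod.fst (hs.2.trans hs'.2.symm))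
          · intro s hs s' hs'
            rw [mem_filter] at hs hs'
            exact hinj 4 s hs.1 s' hs'.1 (congrArg Prod.snd (hs.2.trans hs'.2.symm))
      _ = _ := by
          rw [sum_const, nsmul_eq_mul, card_univ]
          congr 1
          simp only [Fintype.card_fun, Fintype.card_prod, Fintype.card_fin]
          have e3 : ((L + 1) * (L + 1)) = (L + 1) ^ 2 := by ring
          rw [e3, ← pow_mul, ← pow_mul, ← pow_mul, ← pow_mul, ← pow_add, Nat.cast_pow]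
          rw [hm]
          push_cast
          ring
  have hLb := log_le X hX η hηpos
  have hLm : ((L + 1 : ℕ) : ℝ) ^ m ≤ (1 + 2 / η) ^ m * (X : ℝ) ^ (ε / 2) := by
    calc ((L + 1 : ℕ) : ℝ) ^ m ≤ ((1 + 2 / η) * (X : ℝ) ^ η) ^ m :=
          pow_le_pow_left₀ (Nat.cast_nonneg _) hLb m
      _ = (1 + 2 / η) ^ m * (X : ℝ) ^ (ε / 2) := by
          rw [mul_pow]
          congr 1
          rw [← Real.rpow_natCast, ← Real.rpow_mul hXp.le]
          congr 1
          rw [hη]; field_simp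
  calc (A1.card : ℝ) ≤ ((L + 1 : ℕ) : ℝ) ^ m * (D * (X : ℝ) ^ (θ + ε / 2)) := hA1card
    _ ≤ ((1 + 2 / η) ^ m * (X : ℝ) ^ (ε / 2)) * (D * (X : ℝ) ^ (θ + ε / 2)) :=
        mul_le_mul_of_nonneg_right hLm (by positivity)
    _ = (1 + 2 / η) ^ m * D * (X : ℝ) ^ (θ + ε) := by
        have : (X : ℝ) ^ (θ + ε) = (X : ℝ) ^ (ε / 2) * (X : ℝ) ^ (θ + ε / 2) := by
          rw [← Real.rpow_add hXp]; congr 1; ring
        rw [this]; ring

end Pool.Agent.H705R2.LW
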