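import Mathlib
import Pool.Agent.H705R2.ABC2.Main2
import Pool.Agent.H705R2.LW.Gen
import Pool.Agent.H705R2.LW.Cert

/-!
# abc-triples with `a * rad (b c) ≤ c`: at most `X ^ (1/2 + ε)` with `c ≤ X`
-/

namespace Pool.Agent.H705R2.LW

open Finset Pool.Agent.H785R2.ABC Pool.Agent.H785R2.ABC.Bridge Pool.Agent.H705R2.ABC
  Pool.Agent.H705R2.ABC2

theorem rad_mul_coprime {a b : ℕ} (h : Nat.Coprime a b) : rad (a * b) = rad a * rad b := by
  unfold rad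
  rw [Nat.Coprime.primeFactors_mul h, prod_union h.disjoint_primeFactors]

theorem rad_le_self {a : ℕ} (h : 0 < a) : rad a ≤ a :=
  Nat.le_of_dvd h (Nat.prod_primeFactors_dvd _)

/-- the property of the triple -/
def QLW (s : ℕ × ℕ × ℕ) : Prop := s.1 * rad (s.2.1 * s.2.2) ≤ s.2.2

theorem qlw_ext (s : ℕ × ℕ × ℕ) (h : IsABCTriple s.1 s.2.1 s.2.2) (hQ : QLW s) :
    (rad (s.1 * s.2.1 * s.2.2) : ℝ) ≤ (s.2.2 : ℝ) ^ (1 : ℝ) ∧
      cost (expW 4 s) 0 univ + cost (expV 4 s) 1 univ + cost (expV 4 s) 2 univ ≤ 1 := by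
  have hF := basics
  have hc2 : (2 : ℝ) ≤ s.2.2 := by exact_mod_cast two_le_c h
  obtain ⟨ha, hb, hc, habc, hab, hac, hbc⟩ := id h
  have e1 : rad (s.1 * s.2.1 * s.2.2) = rad s.1 * rad (s.2.1 * s.2.2) := by
    rw [mul_assoc]
    exact rad_mul_coprime (Nat.Coprime.mul_right hab hac)
  have hQ' : s.1 * rad (s.2.1 * s.2.2) ≤ s.2.2 := hQ
  constructor
  · rw [Real.rpow_one, e1]
    exact_mod_cast (Nat.mul_le_mul_right _ (rad_le_self ha)).trans hQ'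
  · have p0 := part_eq hF 4 h 0 univ
    have p1 := rd_eq hF 4 h 1 univ
    have p2 := rd_eq hF 4 h 2 univ
    rw [hF.part_univ 4 _ (Bridge.num_pos h 0)] at p0
    rw [hF.rd_univ] at p1 p2
    have n0 : num s 0 = s.1 := by simp [num]
    have n1 : num s 1 = s.2.1 := by simp [num]
    have n2 : num s 2 = s.2.2 := by simp [num]
    rw [n0] at p0
    rw [n1] at p1
    rw [n2] at p2
    have h1 : ((s.1 * rad (s.2.1 * s.2.2) : ℕ) : ℝ) ≤ (s.2.2 : ℝ) := by exact_mod_cast hQ'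
    rw [rad_mul_coprime hbc] at h1
    push_cast at h1
    rw [p0, p1, p2, ← Real.rpow_add (by linarith), ← Real.rpow_add (by linarith)] at h1
    by_contra hcon
    push Not at hcon
    have h2 : (s.2.2 : ℝ) ^ (1 : ℝ) < (s.2.2 : ℝ) ^ (cost (expW 4 s) 0 univ +
        (cost (expV 4 s) 1 univ + cost (expV 4 s) 2 univ)) :=
      Real.rpow_lt_rpow_of_exponent_lt (by linarith) (by linarith)
    rw [Real.rpow_one] at h2
    linarith

theorem cellLW : CellBnd QLW (1 / 2) :=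
  cell_gen basics (PO.stmtPoly_of basics) stmtMcell' stmtEst' stmtDc' 1 (1 / 2) QLW
    (fun v w => cost w 0 univ + cost v 1 univ + cost v 2 univ ≤ 1)
    (fun s h _ hQ => qlw_ext s h hQ)
    (fun δ hδ v w hP hE hf => no_failLW 1 δ hδ v w hP hE hf)

/-- the number of ordered abc-triples `a ≤ b`, `c ≤ X` with `a * rad (b * c) ≤ c` -/
theorem countLW (ε : ℝ) (hε : 0 < ε) : ∃ C : ℝ, 0 < C ∧ ∀ X : ℕ, 1 ≤ X →
    ∀ A : Finset (ℕ × ℕ × ℕ),
      (∀ s ∈ A, IsABCTriple s.1 s.2.1 s.2.2 ∧ s.2.2 ≤ X ∧ s.1 * rad (s.2.1 * s.2.2) ≤ s.2.2 ∧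
        s.1 ≤ s.2.1) →
      (A.card : ℝ) ≤ C * (X : ℝ) ^ (1 / 2 + ε) :=
  count_gen basics QLW (1 / 2) (by norm_num) cellLW ε hε

end Pool.Agent.H705R2.LW
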