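import Mathlib
import Pool.Agent.H705R2.LW.Main

/-!
# Products of integer powers close to 1
-/

namespace Pool.Agent.H705R2.LW

open Finset Pool.Agent.H785R2.ABC

/-- a prime dividing the numerator or the denominator of a product of powers divides a base -/
theorem prime_dvd_base {m : ℕ} (a b : Fin m → ℤ) (ha : ∀ i, a i ≠ 0) (L : ℚ)
    (hL : ∏ i, ((a i : ℚ) ^ (b i)) = L) (p : ℕ) (hp : p.Prime)
    (hd : p ∣ L.num.natAbs ∨ p ∣ L.den) : ∃ i, p ∣ (a i).natAbs := by
  haveI : Fact p.Prime := ⟨hp⟩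
  by_contra hcon
  push Not at hcon
  have h1 : ∀ i, ‖((a i : ℤ) : ℚ_[p])‖ = 1 := by
    intro i
    by_contra hne
    have hlt : ‖((a i : ℤ) : ℚ_[p])‖ < 1 := lt_of_le_of_ne (Padic.norm_int_le_one _) hne
    rw [Padic.norm_intCast_lt_one_iff] at hlt
    exact hcon i (Int.natCast_dvd.mp hlt)
  have h2 : ‖((L : ℚ) : ℚ_[p])‖ = 1 := by
    rw [← hL]
    push_cast
    rw [norm_prod]
    apply prod_eq_one
    intro i _
    rw [norm_zpow, h1 i, one_zpow]
  have hcop : Nat.Coprime L.num.natAbs L.den := L.reduced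
  have h3 : ‖((L.num : ℤ) : ℚ_[p])‖ = ‖((L.den : ℤ) : ℚ_[p])‖ := by
    have e : ((L : ℚ) : ℚ_[p]) = ((L.num : ℤ) : ℚ_[p]) / ((L.den : ℤ) : ℚ_[p]) := by
      conv_lhs => rw [← Rat.num_div_den L]
      push_cast
      rfl
    rw [e, norm_div] at h2
    have hden : ‖((L.den : ℤ) : ℚ_[p])‖ ≠ 0 := by
      rw [norm_ne_zero_iff]
      exact_mod_cast L.den_nz
    rw [div_eq_one_iff_eq hden] at h2
    exact h2
  rcases hd with hd | hd
  · have hlt : ‖((L.num : ℤ) : ℚ_[p])‖ < 1 :=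
      Padic.norm_intCast_lt_one_iff.mpr (Int.natCast_dvd.mpr hd)
    rw [h3, Padic.norm_intCast_lt_one_iff] at hlt
    have hd2 : p ∣ L.den := by exact_mod_cast hlt
    have := Nat.dvd_gcd hd hd2
    rw [hcop] at this
    exact hp.one_lt.ne' (Nat.dvd_one.mp this)
  · have hlt : ‖((L.den : ℤ) : ℚ_[p])‖ < 1 :=
      Padic.norm_intCast_lt_one_iff.mpr (by exact_mod_cast hd)
    rw [← h3, Padic.norm_intCast_lt_one_iff] at hlt
    have hd2 : p ∣ L.num.natAbs := Int.natCast_dvd.mp hlt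
    have := Nat.dvd_gcd hd2 hd
    rw [hcop] at this
    exact hp.one_lt.ne' (Nat.dvd_one.mp this)

theorem rad_le_prod {m : ℕ} (a b : Fin m → ℤ) (ha : ∀ i, a i ≠ 0) (L : ℚ)
    (hL : ∏ i, ((a i : ℚ) ^ (b i)) = L) :
    rad (L.num.natAbs * L.den) ≤ ∏ i, (a i).natAbs := by
  have hpos : 0 < ∏ i, (a i).natAbs := prod_pos fun i _ => Int.natAbs_pos.mpr (ha i)
  apply Nat.le_of_dvd hpos
  have h1 : rad (L.num.natAbs * L.den) ∣ rad (∏ i, (a i).natAbs) := by
    unfold rad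
    apply prod_dvd_prod_of_subset
    intro p hp
    have hpp := Nat.prime_of_mem_primeFactors hp
    have hpd := Nat.dvd_of_mem_primeFactors hp
    obtain ⟨i, hi⟩ := prime_dvd_base a b ha L hL p hpp ((Nat.Prime.dvd_mul hpp).mp hpd)
    exact Nat.mem_primeFactors.mpr ⟨hpp, hi.trans (dvd_prod_of_mem _ (mem_univ i)), hpos.ne'⟩
  exact h1.trans (Nat.prod_primeFactors_dvd _)

theorem rad_ge_two {n : ℕ} (hn : 2 ≤ n) : 2 ≤ rad n := by
  obtain ⟨p, hp, hpn⟩ := Nat.exists_prime_and_dvd (by omega : n ≠ 1)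
  have h1 : p ∈ n.primeFactors := Nat.mem_primeFactors.mpr ⟨hp, hpn, by omega⟩
  have h2 : p ∣ rad n := dvd_prod_of_mem _ h1
  have h3 : 0 < rad n := prod_pos fun q hq => (Nat.prime_of_mem_primeFactors hq).pos
  exact hp.two_le.trans (Nat.le_of_dvd h3 h2)

/-- the key consequence of a violation -/
theorem key_ineq {m : ℕ} (a b : Fin m → ℤ) (ha : ∀ i, a i ≠ 0) (hb : ∀ i, b i ≠ 0) (L : ℚ)
    (hL : ∏ i, ((a i : ℚ) ^ (b i)) = L) (η : ℝ) (hη : 0 ≤ η)
    (hv : |(L : ℝ) - 1| < ((univ.sup fun i => (b i).natAbs : ℕ) : ℝ) /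
      ((∏ i, |((b i : ℤ) : ℝ)|) * (∏ i, |((a i : ℤ) : ℝ)|)) ^ (1 + η)) :
    (L.num - L.den).natAbs * rad (L.num.natAbs * L.den) < L.den := by
  have hPa : 0 < ∏ i, (a i).natAbs := prod_pos fun i _ => Int.natAbs_pos.mpr (ha i)
  have hPb : 0 < ∏ i, (b i).natAbs := prod_pos fun i _ => Int.natAbs_pos.mpr (hb i)
  set PA : ℕ := ∏ i, (a i).natAbs with hPA
  set PB : ℕ := ∏ i, (b i).natAbs with hPB
  have ea : (∏ i, |((a i : ℤ) : ℝ)|) = (PA : ℝ) := by
    rw [hPA]
    push_cast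
    apply prod_congr rfl
    intro i _
    rw [Nat.cast_natAbs, Int.cast_abs]
  have eb : (∏ i, |((b i : ℤ) : ℝ)|) = (PB : ℝ) := by
    rw [hPB]
    push_cast
    apply prod_congr rfl
    intro i _
    rw [Nat.cast_natAbs, Int.cast_abs]
  rw [ea, eb] at hv
  have hsup : (univ.sup fun i => (b i).natAbs : ℕ) ≤ PB := by
    apply Finset.sup_le
    intro i _
    exact Nat.le_of_dvd hPb (dvd_prod_of_mem _ (mem_univ i))
  have hPA1 : (1 : ℝ) ≤ PA := by exact_mod_cast hPa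
  have hPB1 : (1 : ℝ) ≤ PB := by exact_mod_cast hPb
  have hAB1 : (1 : ℝ) ≤ (PB : ℝ) * PA := by nlinarith
  have h1 : ((univ.sup fun i => (b i).natAbs : ℕ) : ℝ) / ((PB : ℝ) * PA) ^ (1 + η) ≤
      1 / PA := by
    have h2 : (PB : ℝ) * PA ≤ ((PB : ℝ) * PA) ^ (1 + η) := by
      calc (PB : ℝ) * PA = ((PB : ℝ) * PA) ^ (1 : ℝ) := (Real.rpow_one _).symm
        _ ≤ _ := Real.rpow_le_rpow_of_exponent_le hAB1 (by linarith)
    calc ((univ.sup fun i => (b i).natAbs : ℕ) : ℝ) / ((PB : ℝ) * PA) ^ (1 + η) ≤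
        (PB : ℝ) / ((PB : ℝ) * PA) := by
          apply div_le_div₀ (by positivity) (by exact_mod_cast hsup) (by positivity) h2
      _ = 1 / PA := by field_simp
  have h2 : |(L : ℝ) - 1| < 1 / PA := lt_of_lt_of_le hv h1
  have hden : (0 : ℝ) < L.den := by exact_mod_cast L.den_pos
  have e1 : (L : ℝ) - 1 = ((L.num - L.den : ℤ) : ℝ) / (L.den : ℝ) := by
    have : (L : ℝ) = (L.num : ℝ) / (L.den : ℝ) := by
      rw [← Rat.cast_natCast, ← Rat.cast_intCast, ← Rat.cast_div, Rat.num_div_den]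
    rw [this]
    push_cast
    field_simp
  rw [e1, abs_div, abs_of_pos hden, div_lt_div_iff₀ hden (by positivity), one_mul,
    ← Int.cast_abs, Int.abs_eq_natAbs] at h2
  have h3 : (L.num - L.den).natAbs * PA < L.den := by exact_mod_cast h2
  exact lt_of_le_of_lt (Nat.mul_le_mul_left _ (rad_le_prod a b ha L hL)) h3

/-- the count of rationals `P / Q ≠ 1` with `|P - Q| * rad (P Q) < Q` -/
theorem count_rat (ε : ℝ) (hε : 0 < ε) : ∃ C : ℝ, ∀ X : ℕ, 1 ≤ X → ∀ S : Set ℚ,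
    (∀ L ∈ S, L ≠ 0 ∧ L ≠ 1 ∧ L.num.natAbs ≤ X ∧ L.den ≤ X ∧
      (L.num - L.den).natAbs * rad (L.num.natAbs * L.den) < L.den) →
    S.Finite ∧ (S.ncard : ℝ) ≤ C * (X : ℝ) ^ (1 / 2 + ε) := by
  classical
  obtain ⟨C, hC, h⟩ := countLW ε hε
  refine ⟨2 * C, fun X hX S hS => ?_⟩
  set box : Finset (ℕ × ℕ × ℕ) := range (X + 1) ×ˢ (range (X + 1) ×ˢ range (X + 1)) with hbox
  set A : Finset (ℕ × ℕ × ℕ) := box.filter (fun s => IsABCTriple s.1 s.2.1 s.2.2 ∧ s.2.2 ≤ X ∧
    s.1 * rad (s.2.1 * s.2.2) ≤ s.2.2 ∧ s.1 ≤ s.2.1) with hA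
  have hAc : (A.card : ℝ) ≤ C * (X : ℝ) ^ (1 / 2 + ε) :=
    h X hX A (fun s hs => (mem_filter.1 hs).2)
  set f1 : ℕ × ℕ × ℕ → ℚ := fun s => (s.2.1 : ℚ) / (s.2.2 : ℚ) with hf1
  set f2 : ℕ × ℕ × ℕ → ℚ := fun s => (s.2.2 : ℚ) / (s.2.1 : ℚ) with hf2
  have hsub : S ⊆ ((A.image f1 ∪ A.image f2 : Finset ℚ) : Set ℚ) := by
    intro L hL
    obtain ⟨h0, h1, hn, hd, hk⟩ := hS L hL
    have hden : 0 < L.den := L.den_pos
    have hcop : Nat.Coprime L.num.natAbs L.den := L.reduced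
    have hr1 : 1 ≤ rad (L.num.natAbs * L.den) :=
      prod_pos fun q hq => (Nat.prime_of_mem_primeFactors hq).pos
    have hk1 : (L.num - L.den).natAbs < L.den :=
      lt_of_le_of_lt (Nat.le_mul_of_pos_right _ hr1) hk
    have hnpos : 0 < L.num := by omega
    obtain ⟨P, hP⟩ : ∃ P : ℕ, L.num = (P : ℤ) := ⟨L.num.toNat, by omega⟩
    have hP0 : 0 < P := by omega
    have hLe : L = (P : ℚ) / (L.den : ℚ) := by
      have h5 : (L.num : ℚ) / (L.den : ℚ) = L := Rat.num_div_den L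
      rw [hP, Int.cast_natCast] at h5
      exact h5.symm
    rw [hP] at hn hcop hk hk1
    simp only [Int.natAbs_natCast] at hn hcop hk
    set Q : ℕ := L.den with hQ
    have hPQ : P ≠ Q := by
      intro he
      apply h1
      rw [hLe, he]
      exact div_self (by exact_mod_cast hden.ne')
    rw [coe_union, Set.mem_union, mem_coe, mem_coe, mem_image, mem_image]
    rcases lt_or_gt_of_ne hPQ with hlt | hlt
    · left
      refine ⟨(Q - P, P, Q), ?_, by rw [hf1]; exact hLe.symm⟩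
      have e : ((P : ℤ) - (Q : ℤ)).natAbs = Q - P := by omega
      rw [e] at hk
      have hr2 : 2 ≤ rad (P * Q) := rad_ge_two (by nlinarith)
      have hk2 : (Q - P) * 2 < Q := lt_of_le_of_lt (Nat.mul_le_mul_left _ hr2) hk
      rw [hA, mem_filter]
      refine ⟨?_, ⟨by simp only; omega, hP0, hden, by simp only; omega, ?_, ?_, hcop⟩, hd, hk.le,
        by simp only; omega⟩
      · rw [hbox, mem_product, mem_product, mem_range, mem_range, mem_range]
        simp only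
        omega
      · simp only
        exact (Nat.coprime_sub_self_left hlt.le).mpr hcop.symm
      · simp only
        have := (Nat.coprime_self_sub_left hlt.le).mpr hcop
        exact this
    · right
      refine ⟨(P - Q, Q, P), ?_, by rw [hf2]; exact hLe.symm⟩
      have e : ((P : ℤ) - (Q : ℤ)).natAbs = P - Q := by omega
      rw [e] at hk hk1
      rw [hA, mem_filter]
      refine ⟨?_, ⟨by simp only; omega, hden, hP0, by simp only; omega, ?_, ?_, hcop.symm⟩, hn, ?_,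
        by simp only; omega⟩
      · rw [hbox, mem_product, mem_product, mem_range, mem_range, mem_range]
        simp only
        omega
      · simp only
        exact (Nat.coprime_sub_self_left hlt.le).mpr hcop
      · simp only
        exact (Nat.coprime_self_sub_left hlt.le).mpr hcop.symm
      · simp only
        rw [mul_comm Q P]
        omega
  have hfin : S.Finite := Set.Finite.subset (Finset.finite_toSet _) hsub
  refine ⟨hfin, ?_⟩
  have c1 : S.ncard ≤ (A.image f1 ∪ A.image f2).card := by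
    rw [← Set.ncard_coe_finset]
    exact Set.ncard_le_ncard hsub (Finset.finite_toSet _)
  have c2 : (A.image f1 ∪ A.image f2).card ≤ 2 * A.card := by
    have h1 := card_union_le (A.image f1) (A.image f2)
    have h2 : (A.image f1).card ≤ A.card := card_image_le
    have h3 : (A.image f2).card ≤ A.card := card_image_le
    omega
  have c3 : (S.ncard : ℝ) ≤ 2 * A.card := by exact_mod_cast c1.trans c2
  linarith

end Pool.Agent.H705R2.LW
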